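import Pool.Agent.P.MP_f981b0_an.IS72.Ker

set_option autoImplicit false
open Polynomial Finset Complex

namespace Pool.Agent.P.MP_f981b0_an.IS72

/-- the arc function with centre `c` and half width `3π/(4a)` -/
noncomputable def chc (a N : ℕ) (c : ℝ) (s : ℂ) : ℂ :=
  ch N (c - 3 * (Real.pi / (4 * a))) (c + 3 * (Real.pi / (4 * a))) s

/-- its coefficients -/
noncomputable def cf (a N : ℕ) (c : ℝ) (i : ℕ) : ℂ :=
  (kp N i : ℂ) * gm (c - 3 * (Real.pi / (4 * a))) (c + 3 * (Real.pi / (4 * a))) ((i : ℂ) - N)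

lemma chc_eq (a N : ℕ) (c : ℝ) (s : ℂ) :
    chc a N c s = ∑ i ∈ range (2 * N + 1), cf a N c i * exp (((i : ℂ) - N) * s) := rfl

lemma cf_le (a N : ℕ) (ha : 1 ≤ a) (c : ℝ) (i : ℕ) : ‖cf a N c i‖ ≤ 3 / (4 * a) := by
  have ha' : (1 : ℝ) ≤ a := by exact_mod_cast ha
  have hpi := Real.pi_pos
  have h0 : 0 < Real.pi / (4 * a) := by positivity
  have := norm_gm (c - 3 * (Real.pi / (4 * a))) (c + 3 * (Real.pi / (4 * a))) (by linarith)
    ((i : ℝ) - N)
  push_cast at this
  rw [cf, norm_mul, Complex.norm_real, Real.norm_of_nonneg (kp_nonneg N i)]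
  refine (mul_le_of_le_one_left (norm_nonneg _) (kp_le N i)).trans (this.trans (le_of_eq ?_))
  field_simp; ring

lemma cf_le' (a N : ℕ) (c : ℝ) (i : ℕ) : ‖cf a N c i‖ * |(i : ℝ) - N| ≤ 1 / 3 := by
  have := norm_gm' (c - 3 * (Real.pi / (4 * a))) (c + 3 * (Real.pi / (4 * a))) ((i : ℝ) - N)
  push_cast at this
  rw [cf, norm_mul, Complex.norm_real, Real.norm_of_nonneg (kp_nonneg N i), mul_assoc]
  exact (mul_le_of_le_one_left (by positivity) (kp_le N i)).trans this

lemma cf_sum (a N : ℕ) (hN : 1 ≤ N) (c : ℝ) :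
    ∑ i ∈ range (2 * N + 1), ‖cf a N c i‖ * |(i : ℝ) - N| ≤ N := by
  refine (Finset.sum_le_card_nsmul _ _ _ fun i _ => cf_le' a N c i).trans ?_
  have : (1 : ℝ) ≤ N := by exact_mod_cast hN
  simp only [card_range, nsmul_eq_mul]
  push_cast; linarith

lemma chc_far (a N : ℕ) (ha : 1 ≤ a) (c : ℝ) (s : ℂ) (hx : |s.re| ≤ 1 / (4 * a))
    (h1 : 4 * (Real.pi / (4 * a)) ≤ |s.im - c|)
    (h2 : |s.im - c| ≤ 2 * Real.pi - 4 * (Real.pi / (4 * a))) : ‖chc a N c s‖ ≤ tiny a N := by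
  have ha' : (1 : ℝ) ≤ a := by exact_mod_cast ha
  have hpi := Real.pi_pos
  have h0 : 0 < Real.pi / (4 * a) := by positivity
  have h00 : Real.pi / (4 * a) ≤ Real.pi / 4 := by
    apply div_le_div_of_nonneg_left hpi.le (by norm_num); linarith
  refine norm_ch N _ _ s _ (tiny_pos a N).le (by linarith) (by linarith) fun α hα1 hα2 => ?_
  have e : (s - α * I).im = s.im - α := by simp
  have hd : |c - α| ≤ 3 * (Real.pi / (4 * a)) := abs_le.mpr ⟨by linarith, by linarith⟩
  refine Kn_far a N ha _ (by simpa using hx) ?_ ?_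
  · rw [e]
    have := abs_sub_le s.im α c
    rw [abs_sub_comm α c] at this
    linarith
  · rw [e]
    have := abs_sub_le s.im c α
    linarith

lemma chc_near (a N : ℕ) (ha : 1 ≤ a) (c : ℝ) (s : ℂ) (hx : |s.re| ≤ 1 / (4 * a))
    (h1 : |s.im - c| ≤ 2 * (Real.pi / (4 * a))) : ‖1 - chc a N c s‖ ≤ tiny a N := by
  have ha' : (1 : ℝ) ≤ a := by exact_mod_cast ha
  have hpi := Real.pi_pos
  have h0 : 0 < Real.pi / (4 * a) := by positivity
  have h00 : Real.pi / (4 * a) ≤ Real.pi / 4 := by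
    apply div_le_div_of_nonneg_left hpi.le (by norm_num); linarith
  rw [← ch_full N (c - 3 * (Real.pi / (4 * a))) (c + 3 * (Real.pi / (4 * a))) s, chc,
    add_sub_cancel_left]
  refine norm_ch N _ _ s _ (tiny_pos a N).le (by linarith) (by linarith) fun α hα1 hα2 => ?_
  have e : (s - α * I).im = s.im - α := by simp
  have h3 := abs_le.mp h1
  refine Kn_far a N ha _ (by simpa using hx) ?_ ?_
  · rw [e, abs_of_nonpos (by linarith)]; linarith
  · rw [e, abs_of_nonpos (by linarith)]; linarith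

/-- the shifted logarithms -/
noncomputable def sh (a k : ℕ) (s : ℂ) : ℂ := s + ((2 * Real.pi * k / a : ℝ) : ℂ) * I

lemma exp_sh (a k : ℕ) (s : ℂ) : om a ^ k * exp s = exp (sh a k s) := by
  rw [om, ← exp_nat_mul, ← exp_add, sh]; congr 1; push_cast; ring

lemma sh_re (a k : ℕ) (s : ℂ) : (sh a k s).re = s.re := by
  rw [sh, add_re, re_ofReal_mul, I_re]; ring

lemma sh_im (a k : ℕ) (s : ℂ) : (sh a k s).im = s.im + 2 * Real.pi * k / a := by
  rw [sh, add_im, im_ofReal_mul, I_im]; ring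

lemma om_pow (a : ℕ) (ha : 1 ≤ a) (k : ℕ) (w : ℂ) : (om a ^ k * w) ^ a = w ^ a := by
  have hp : IsPrimitiveRoot (om a) a := Complex.isPrimitiveRoot_exp a (by omega)
  rw [mul_pow, ← pow_mul, mul_comm k a, pow_mul, hp.pow_eq_one]; simp

lemma chc_close (a N : ℕ) (ha : 1 ≤ a) (c : ℝ) (s : ℂ) (hx : |s.re| ≤ 1 / (4 * a))
    (h1 : |s.im - c| ≤ Real.pi / (2 * a)) (k : ℕ) (hk : k < a) :
    ‖(if k = 0 then 1 else 0) - chc a N c (sh a k s)‖ ≤ tiny a N := by
  have ha' : (1 : ℝ) ≤ a := by exact_mod_cast ha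
  have hpi := Real.pi_pos
  have h0 : 0 < Real.pi / (4 * a) := by positivity
  have e : Real.pi / (2 * a) = 2 * (Real.pi / (4 * a)) := by field_simp; ring
  rw [e] at h1
  split_ifs with h
  · subst h
    refine chc_near a N ha c _ (by rw [sh_re]; exact hx) ?_
    rw [sh_im]; simpa using h1
  · rw [zero_sub, norm_neg]
    have e2 : 2 * Real.pi * k / a = 8 * k * (Real.pi / (4 * a)) := by field_simp; ring
    have e3 : 2 * Real.pi = 8 * a * (Real.pi / (4 * a)) := by field_simp; ring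
    have k1 : (1 : ℝ) ≤ k := by exact_mod_cast Nat.one_le_iff_ne_zero.mpr h
    have k2 : (k : ℝ) + 1 ≤ a := by exact_mod_cast hk
    have h3 := abs_le.mp h1
    refine chc_far a N ha c _ (by rw [sh_re]; exact hx) ?_ ?_
    · rw [sh_im, e2, abs_of_nonneg (by nlinarith)]; nlinarith
    · rw [sh_im, e2, abs_of_nonneg (by nlinarith), e3]; nlinarith

lemma exp_pow_shift (N M i : ℕ) (h : N ≤ M) (s : ℂ) :
    exp s ^ (M - N + i) = exp s ^ M * exp (((i : ℂ) - N) * s) := by
  rw [← exp_nat_mul, ← exp_nat_mul, ← exp_add]; congr 1; push_cast [h]; ring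

lemma one_sub_ge (x : ℝ) (h0 : 0 < x) (h1 : x ≤ 1) (s : ℂ) (hs : s.re = -x) :
    x / 2 ≤ ‖1 - exp s‖ := by
  have h2 : 1 - ‖exp s‖ ≤ ‖1 - exp s‖ := by simpa using norm_sub_norm_le 1 (exp s)
  rw [norm_exp, hs] at h2
  have h3 : Real.exp (-x) ≤ 1 - x / 2 := by
    rw [Real.exp_neg, inv_le_comm₀ (Real.exp_pos x) (by linarith)]
    refine le_trans ?_ (Real.add_one_le_exp x)
    rw [inv_le_iff_one_le_mul₀ (by linarith)]
    nlinarith
  linarith

/-- nodes on the arcs away from `w = 1` -/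
theorem nod_ne (a N L : ℕ) (ha : 1 ≤ a) (hN : 1 ≤ N) (hL : N ≤ a * L) (t1 η : ℝ) (ht : 0 ≤ t1)
    (hη : 0 < η) (hη1 : η ≤ 1 / 4) (q : ℤ) (hq0 : q ≠ 0) (hq : |q| ≤ a) :
    ∃ μ : ℂ[X], l1 μ ≤ 4 * a * t1 * N ∧ ∀ φ : ℝ, |φ - Real.pi * q / a| ≤ Real.pi / (2 * a) →
      ∀ w : ℂ, w = exp (-(η : ℂ) / a + φ * I) →
      ‖(w ^ a) ^ L * (t1 * w / (1 - w)) - μ.eval (w ^ a)‖ ≤
        16 * a ^ 2 * (t1 / η) * (2 * N + 1) * Real.exp (-(N : ℝ) / (32 * (a : ℝ) ^ 2)) := by
  have ha' : (1 : ℝ) ≤ a := by exact_mod_cast ha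
  have hpi := Real.pi_pos
  set c : ℝ := Real.pi * q / a with hc
  choose r hr1 hr2 using fun i : ℕ => div_mono (a * L + 1 - N + i) (a * L + 1)
  set R : ℂ[X] := ∑ i ∈ range (2 * N + 1), C (cf a N c i) * r i with hR
  have hR1 : l1 R ≤ N := by
    refine (l1_sum _ _).trans (le_trans (Finset.sum_le_sum fun i _ => ?_) (cf_sum a N hN c))
    rw [l1_C_mul]
    refine mul_le_mul_of_nonneg_left ((hr1 i).trans (le_of_eq ?_)) (norm_nonneg _)
    congr 1
    have : N ≤ a * L + 1 := by omega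
    push_cast [this]; ring
  have hR2 : ∀ s : ℂ, (1 - exp s) * R.eval (exp s) =
      exp s ^ (a * L + 1) * (chc a N c s - chc a N c 0) := by
    intro s
    rw [hR, eval_finsetSum, chc_eq, chc_eq, ← Finset.sum_sub_distrib, Finset.mul_sum, Finset.mul_sum]
    refine Finset.sum_congr rfl fun i _ => ?_
    rw [eval_mul, eval_C, mul_left_comm, hr2, exp_pow_shift N _ i (by omega)]
    simp only [mul_zero, exp_zero]; ring
  obtain ⟨m, hm1, hm2⟩ := trace a ha R
  refine ⟨C (t1 : ℂ) * m, ?_, fun φ hφ w hw => ?_⟩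
  · rw [l1_C_mul, Complex.norm_real, Real.norm_of_nonneg ht]
    have h1 : l1 m ≤ a * N := hm1.trans (mul_le_mul_of_nonneg_left hR1 (by positivity))
    have h2 := mul_le_mul_of_nonneg_left h1 ht
    have : 0 ≤ t1 * (a * N) := by positivity
    nlinarith
  set s : ℂ := -(η : ℂ) / a + φ * I with hs
  have hsre : s.re = -(η / a) := by
    have : s = ((-(η / a) : ℝ) : ℂ) + φ * I := by rw [hs]; push_cast; ring
    rw [this]; simp
  have hsim : s.im = φ := by
    have : s = ((-(η / a) : ℝ) : ℂ) + φ * I := by rw [hs]; push_cast; ring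
    rw [this]; simp
  have hx0 : 0 < η / a := by positivity
  have hx1 : η / a ≤ 1 / (4 * a) := by
    rw [div_le_div_iff₀ (by positivity) (by positivity)]; nlinarith
  have hx2 : 1 / (4 * (a : ℝ)) ≤ 1 := by rw [div_le_one (by positivity)]; linarith
  have hx : |s.re| ≤ 1 / (4 * a) := by rw [hsre, abs_neg, abs_of_pos hx0]; exact hx1
  have h0 : ‖chc a N c 0‖ ≤ tiny a N := by
    have q1 : (1 : ℝ) ≤ |(q : ℝ)| := by exact_mod_cast Int.one_le_abs hq0
    have q2 : |(q : ℝ)| ≤ a := by exact_mod_cast hq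
    have e : |(0 : ℂ).im - c| = 4 * |(q : ℝ)| * (Real.pi / (4 * a)) := by
      rw [zero_im, zero_sub, abs_neg, hc, abs_div, abs_mul, abs_of_pos hpi, Nat.abs_cast]
      field_simp
    have e3 : 2 * Real.pi = 8 * a * (Real.pi / (4 * a)) := by field_simp; ring
    have h0 : 0 < Real.pi / (4 * a) := by positivity
    refine chc_far a N ha c 0 (by simp) ?_ ?_
    · rw [e]; nlinarith
    · rw [e, e3]; nlinarith
  have hlow : ∀ k, η / a / 2 ≤ ‖1 - exp (sh a k s)‖ := fun k =>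
    one_sub_ge _ hx0 (hx1.trans hx2) _ (by rw [sh_re, hsre])
  have hne : ∀ k, 1 - exp (sh a k s) ≠ 0 := fun k h => by
    have := hlow k; rw [h, norm_zero] at this; linarith
  have hn1 : ∀ k, ‖exp (sh a k s)‖ ≤ 1 := fun k => by
    rw [norm_exp, sh_re, hsre]; exact Real.exp_le_one_iff.mpr (by linarith)
  have e : (w ^ a) ^ L * (t1 * w / (1 - w)) - (C (t1 : ℂ) * m).eval (w ^ a) =
      ∑ k ∈ range a, t1 * exp (sh a k s) ^ (a * L + 1) / (1 - exp (sh a k s)) *
        (((if k = 0 then 1 else 0) - chc a N c (sh a k s)) + chc a N c 0) := by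
    rw [eval_mul, eval_C, ← hm2, Finset.mul_sum]
    have e1 : (w ^ a) ^ L * (t1 * w / (1 - w)) = ∑ k ∈ range a,
        t1 * exp (sh a k s) ^ (a * L + 1) / (1 - exp (sh a k s)) * (if k = 0 then 1 else 0) := by
      simp_rw [mul_ite, mul_one, mul_zero]
      rw [Finset.sum_ite_eq', if_pos (by simp; omega), ← exp_sh, ← hw, pow_zero, one_mul, ← pow_mul]
      ring
    rw [e1, ← Finset.sum_sub_distrib]
    refine Finset.sum_congr rfl fun k _ => ?_
    rw [hw, exp_sh]
    have := hR2 (sh a k s)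
    have h3 := hne k
    field_simp
    linear_combination (-(t1 : ℂ)) * this
  rw [e]
  refine (norm_sum_le _ _).trans ((Finset.sum_le_card_nsmul _ _
    (t1 / (η / a / 2) * (2 * tiny a N)) fun k hk => ?_).trans ?_)
  · rw [norm_mul, norm_div, norm_mul, Complex.norm_real, Real.norm_of_nonneg ht, norm_pow]
    refine mul_le_mul ?_ ?_ (norm_nonneg _) (by positivity)
    · refine div_le_div₀ ht (mul_le_of_le_one_right ht (pow_le_one₀ (norm_nonneg _) (hn1 k)))
        (by positivity) (hlow k)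
    · refine (norm_add_le _ _).trans ?_
      have := chc_close a N ha c s hx (by rw [hsim]; exact hφ) k (mem_range.mp hk)
      linarith
  · simp only [card_range, nsmul_eq_mul]
    have e4 : a * (t1 / (η / a / 2) * (2 * tiny a N)) = 4 * (a ^ 2 * (t1 / η) * tiny a N) := by
      field_simp; ring
    have : 0 ≤ a ^ 2 * (t1 / η) * tiny a N := by have := tiny_pos a N; positivity
    rw [e4]; unfold tiny at *; nlinarith

/-- the node on the arc around `w = 1` -/
theorem nod_zero (a N L : ℕ) (ha : 1 ≤ a) (hN : 1 ≤ N) (hL : N ≤ a * L) (t1 η : ℝ) (ht : 0 ≤ t1)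
    (hη : 0 < η) (hη1 : η ≤ 1 / 4) :
    ∃ μ : ℂ[X], l1 μ ≤ 4 * a * t1 * N ∧ ∀ φ : ℝ, |φ| ≤ Real.pi / (2 * a) →
      ∀ w : ℂ, w = exp (-(η : ℂ) / a + φ * I) →
      ‖(1 - w ^ a) * ((w ^ a) ^ L * (t1 * w / (1 - w)) - μ.eval (w ^ a)) - a * t1 * (w ^ a) ^ L‖ ≤
        16 * a ^ 2 * (t1 / η) * (2 * N + 1) * Real.exp (-(N : ℝ) / (32 * (a : ℝ) ^ 2)) := by
  have ha' : (1 : ℝ) ≤ a := by exact_mod_cast ha
  have hN' : (1 : ℝ) ≤ N := by exact_mod_cast hN
  have hpi := Real.pi_pos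
  choose r hr1 hr2 using fun e : ℕ => trace_div a ha L e
  set R : ℂ[X] := ∑ i ∈ range (2 * N + 1), ∑ j ∈ range a,
    C (cf a N 0 i) * r (a * L - N + i + (j + 1)) with hR
  have hR1 : l1 R ≤ 4 * a * N := by
    have h1 : l1 R ≤ ∑ i ∈ range (2 * N + 1), (a * (‖cf a N 0 i‖ * |(i : ℝ) - N|) + a * (3 / 4)) := by
      refine (l1_sum _ _).trans (Finset.sum_le_sum fun i _ => (l1_sum _ _).trans ?_)
      refine (Finset.sum_le_card_nsmul _ _ (‖cf a N 0 i‖ * |(i : ℝ) - N| + 3 / 4)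
        fun j hj => ?_).trans (by simp only [card_range, nsmul_eq_mul]; linarith)
      rw [l1_C_mul]
      have j1 : (j : ℝ) + 1 ≤ a := by exact_mod_cast mem_range.mp hj
      have h2 : l1 (r (a * L - N + i + (j + 1))) ≤ |(i : ℝ) - N| + a := by
        refine (hr1 _).trans ?_
        have : ((a * L - N + i + (j + 1) : ℕ) : ℝ) - a * L = ((i : ℝ) - N) + (j + 1) := by
          push_cast [hL]; ring
        rw [this]
        refine (abs_add_le _ _).trans ?_
        rw [abs_of_nonneg (show (0 : ℝ) ≤ j + 1 by positivity)]; linarith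
      have h3 : ‖cf a N 0 i‖ * a ≤ 3 / 4 := by
        refine (mul_le_mul_of_nonneg_right (cf_le a N ha 0 i) (by positivity)).trans (le_of_eq ?_)
        field_simp
      have := mul_le_mul_of_nonneg_left h2 (norm_nonneg (cf a N 0 i))
      linarith
    rw [Finset.sum_add_distrib, ← Finset.mul_sum] at h1
    have h2 := mul_le_mul_of_nonneg_left (cf_sum a N hN 0) (show (0 : ℝ) ≤ a by positivity)
    simp only [sum_const, card_range, nsmul_eq_mul] at h1
    push_cast at h1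
    nlinarith
  have hS : ∀ (k : ℕ) (s : ℂ), ∑ i ∈ range (2 * N + 1), ∑ j ∈ range a,
      cf a N 0 i * (om a ^ k * exp s) ^ (a * L - N + i + (j + 1)) =
      (exp s ^ a) ^ L * (chc a N 0 (sh a k s) * ∑ j ∈ range a, exp (sh a k s) ^ (j + 1)) := by
    intro k s
    rw [chc_eq, Finset.sum_mul, Finset.mul_sum]
    refine Finset.sum_congr rfl fun i _ => ?_
    rw [Finset.mul_sum, Finset.mul_sum]
    refine Finset.sum_congr rfl fun j _ => ?_
    rw [← om_pow a ha k (exp s), exp_sh, pow_add, exp_pow_shift N _ i hL, pow_mul]; ring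
  have hR2 : ∀ s : ℂ, (1 - exp s ^ a) * R.eval (exp s ^ a) = (exp s ^ a) ^ L *
      ∑ k ∈ range a, (chc a N 0 (sh a k s) * ∑ j ∈ range a, exp (sh a k s) ^ (j + 1) -
        chc a N 0 (sh a k 0) * ∑ j ∈ range a, exp (sh a k 0) ^ (j + 1)) := by
    intro s
    have e1 : ∀ k, (exp s ^ a) ^ L * (chc a N 0 (sh a k s) * ∑ j ∈ range a, exp (sh a k s) ^ (j + 1) -
        chc a N 0 (sh a k 0) * ∑ j ∈ range a, exp (sh a k 0) ^ (j + 1)) =
        ∑ i ∈ range (2 * N + 1), ∑ j ∈ range a,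
          cf a N 0 i * ((om a ^ k * exp s) ^ (a * L - N + i + (j + 1)) -
            (om a ^ k) ^ (a * L - N + i + (j + 1)) * (exp s ^ a) ^ L) := by
      intro k
      have h1 := hS k s
      have h2 := hS k 0
      simp only [exp_zero, mul_one, one_pow, one_mul] at h2
      rw [mul_sub, ← h1, ← h2, Finset.mul_sum, ← Finset.sum_sub_distrib]
      refine Finset.sum_congr rfl fun i _ => ?_
      rw [Finset.mul_sum, ← Finset.sum_sub_distrib]
      exact Finset.sum_congr rfl fun j _ => by ring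
    rw [Finset.mul_sum, Finset.sum_congr rfl fun k _ => e1 k, Finset.sum_comm, hR, eval_finsetSum,
      Finset.mul_sum]
    refine Finset.sum_congr rfl fun i _ => ?_
    rw [Finset.sum_comm, eval_finsetSum, Finset.mul_sum]
    refine Finset.sum_congr rfl fun j _ => ?_
    rw [eval_mul, eval_C, mul_left_comm, hr2, ← Finset.mul_sum, Finset.sum_sub_distrib,
      ← Finset.sum_mul]
  refine ⟨C (t1 : ℂ) * R, ?_, fun φ hφ w hw => ?_⟩
  · rw [l1_C_mul, Complex.norm_real, Real.norm_of_nonneg ht]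
    have h2 := mul_le_mul_of_nonneg_left hR1 ht
    linarith
  set s : ℂ := -(η : ℂ) / a + φ * I with hs
  have hsre : s.re = -(η / a) := by
    have : s = ((-(η / a) : ℝ) : ℂ) + φ * I := by rw [hs]; push_cast; ring
    rw [this]; simp
  have hsim : s.im = φ := by
    have : s = ((-(η / a) : ℝ) : ℂ) + φ * I := by rw [hs]; push_cast; ring
    rw [this]; simp
  have hx0 : 0 < η / a := by positivity
  have hx1 : η / a ≤ 1 / (4 * a) := by
    rw [div_le_div_iff₀ (by positivity) (by positivity)]; nlinarith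
  have hx2 : 1 / (4 * (a : ℝ)) ≤ 1 := by rw [div_le_one (by positivity)]; linarith
  have hx : |s.re| ≤ 1 / (4 * a) := by rw [hsre, abs_neg, abs_of_pos hx0]; exact hx1
  have hne : 1 - w ≠ 0 := fun h => by
    have := one_sub_ge _ hx0 (hx1.trans hx2) s hsre
    rw [← hw, h, norm_zero] at this; linarith
  have hG : ∀ (k : ℕ) (s : ℂ), s.re ≤ 0 → ‖∑ j ∈ range a, exp (sh a k s) ^ (j + 1)‖ ≤ a := by
    intro k s hs
    refine (norm_sum_le _ _).trans ((Finset.sum_le_card_nsmul _ _ 1 fun j _ => ?_).trans (by simp))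
    rw [norm_pow, norm_exp, sh_re]
    exact pow_le_one₀ (Real.exp_pos _).le (Real.exp_le_one_iff.mpr hs)
  have hz : ‖(w ^ a) ^ L‖ ≤ 1 := by
    rw [norm_pow, norm_pow, hw, norm_exp, hsre]
    exact pow_le_one₀ (by positivity)
      (pow_le_one₀ (Real.exp_pos _).le (Real.exp_le_one_iff.mpr (by linarith)))
  have e : (1 - w ^ a) * ((w ^ a) ^ L * (t1 * w / (1 - w)) - (C (t1 : ℂ) * R).eval (w ^ a)) -
      a * t1 * (w ^ a) ^ L = (w ^ a) ^ L * (t1 * ∑ k ∈ range a,
        (((if k = 0 then 1 else 0) - chc a N 0 (sh a k s)) * ∑ j ∈ range a, exp (sh a k s) ^ (j + 1) -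
        ((if k = 0 then 1 else 0) - chc a N 0 (sh a k 0)) *
          ∑ j ∈ range a, exp (sh a k 0) ^ (j + 1))) := by
    have h1 := hR2 s
    rw [← hw] at h1
    have h2 : ∑ k ∈ range a, (if k = 0 then (1 : ℂ) else 0) *
        ∑ j ∈ range a, exp (sh a k s) ^ (j + 1) = (1 - w ^ a) * (w / (1 - w)) := by
      simp_rw [ite_mul, one_mul, zero_mul]
      rw [Finset.sum_ite_eq', if_pos (by simp; omega), ← exp_sh, ← hw, pow_zero, one_mul]
      simp_rw [pow_succ]
      rw [← Finset.sum_mul, ← mul_neg_geom_sum]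
      field_simp
    have h3 : ∑ k ∈ range a, (if k = 0 then (1 : ℂ) else 0) *
        ∑ j ∈ range a, exp (sh a k 0) ^ (j + 1) = a := by
      simp_rw [ite_mul, one_mul, zero_mul]
      rw [Finset.sum_ite_eq', if_pos (by simp; omega), ← exp_sh]
      simp
    simp_rw [sub_mul]
    rw [Finset.sum_sub_distrib] at h1
    rw [Finset.sum_sub_distrib, Finset.sum_sub_distrib, Finset.sum_sub_distrib, h2, h3, eval_mul,
      eval_C]
    linear_combination (-(t1 : ℂ)) * h1
  rw [e, norm_mul, norm_mul, Complex.norm_real, Real.norm_of_nonneg ht]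
  have hb : ‖∑ k ∈ range a,
        (((if k = 0 then 1 else 0) - chc a N 0 (sh a k s)) * ∑ j ∈ range a, exp (sh a k s) ^ (j + 1) -
        ((if k = 0 then 1 else 0) - chc a N 0 (sh a k 0)) *
          ∑ j ∈ range a, exp (sh a k 0) ^ (j + 1))‖ ≤ a * (2 * (tiny a N * a)) := by
    refine (norm_sum_le _ _).trans ((Finset.sum_le_card_nsmul _ _ (2 * (tiny a N * a))
      fun k hk => ?_).trans (by simp))
    refine (norm_sub_le _ _).trans ?_
    rw [norm_mul, norm_mul]
    have h1 := mul_le_mul (chc_close a N ha 0 s hx (by rw [hsim]; simpa using hφ) k (mem_range.mp hk))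
      (hG k s (by rw [hsre]; linarith)) (norm_nonneg _) (tiny_pos a N).le
    have h2 := mul_le_mul (chc_close a N ha 0 0 (by simp) (by simp; positivity) k (mem_range.mp hk))
      (hG k 0 (by simp)) (norm_nonneg _) (tiny_pos a N).le
    linarith
  have ht2 : t1 ≤ t1 / η := by rw [le_div_iff₀ hη]; nlinarith
  have htp := tiny_pos a N
  refine (mul_le_of_le_one_left (by positivity) hz).trans
    ((mul_le_mul ht2 hb (norm_nonneg _) (by positivity)).trans ?_)
  have : 0 ≤ a ^ 2 * (t1 / η) * tiny a N := by positivity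
  unfold tiny at *; nlinarith

end Pool.Agent.P.MP_f981b0_an.IS72
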