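import Pool.Agent.P.MP_f981b0_an.IS72.L1

set_option autoImplicit false
open Polynomial Finset Complex

namespace Pool.Agent.P.MP_f981b0_an.IS72

/-- normalised binomial coefficients -/
noncomputable def kp (N i : ℕ) : ℝ := ((2 * N).choose i : ℝ) / ((2 * N).choose N : ℝ)

lemma cb_pos (N : ℕ) : (0 : ℝ) < ((2 * N).choose N : ℝ) := by
  exact_mod_cast Nat.choose_pos (by omega)

lemma kp_nonneg (N i : ℕ) : 0 ≤ kp N i := div_nonneg (by positivity) (cb_pos N).le

lemma kp_le (N i : ℕ) : kp N i ≤ 1 := by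
  rw [kp, div_le_one (cb_pos N)]
  exact_mod_cast Nat.choose_le_centralBinom i N

lemma kp_self (N : ℕ) : kp N N = 1 := div_self (cb_pos N).ne'

/-- the kernel in the logarithmic variable -/
noncomputable def Kn (N : ℕ) (s : ℂ) : ℂ :=
  ∑ i ∈ range (2 * N + 1), (kp N i : ℂ) * exp (((i : ℂ) - N) * s)

lemma Kn_eq (N : ℕ) (s : ℂ) :
    Kn N s = (exp s + 1) ^ (2 * N) * exp (-(N : ℂ) * s) / ((2 * N).choose N : ℂ) := by
  rw [add_pow, Finset.sum_mul, Finset.sum_div, Kn]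
  refine Finset.sum_congr rfl fun i _ => ?_
  rw [kp, sub_mul, sub_eq_add_neg, exp_add, ← exp_nat_mul, one_pow]
  push_cast
  ring_nf

lemma norm_Kn (N : ℕ) (s : ℂ) :
    ‖Kn N s‖ ≤ (2 * N + 1) * ((Real.cosh s.re + Real.cos s.im) / 2) ^ N := by
  have h1 : ‖exp s + 1‖ ^ 2 = Real.exp s.re * (2 * (Real.cosh s.re + Real.cos s.im)) := by
    rw [Complex.sq_norm, normSq_apply]
    simp only [add_re, exp_re, one_re, add_im, exp_im, one_im, add_zero]
    rw [Real.cosh_eq]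
    have h := Real.sin_sq_add_cos_sq s.im
    have h2 : Real.exp s.re * Real.exp (-s.re) = 1 := by rw [← Real.exp_add]; simp
    linear_combination (Real.exp s.re) ^ 2 * h - h2
  have hc : 0 ≤ Real.cosh s.re + Real.cos s.im := by
    have := Real.one_le_cosh s.re
    have := Real.neg_one_le_cos s.im
    linarith
  rw [Kn_eq, norm_div, norm_mul, norm_pow, pow_mul, h1, norm_exp, mul_pow]
  have h3 : (-(N : ℂ) * s).re = -(N * s.re) := by simp
  have h4 : Real.exp s.re ^ N * (2 * (Real.cosh s.re + Real.cos s.im)) ^ N * Real.exp (-(N * s.re))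
      = 4 ^ N * ((Real.cosh s.re + Real.cos s.im) / 2) ^ N := by
    rw [mul_right_comm, ← Real.exp_nat_mul, ← Real.exp_add, add_neg_cancel, Real.exp_zero, one_mul,
      ← mul_pow]
    congr 1; ring
  rw [h3, h4, Complex.norm_natCast, div_le_iff₀ (cb_pos N)]
  have h5 : (4 : ℝ) ^ N ≤ (2 * N + 1) * ((2 * N).choose N : ℝ) := by
    exact_mod_cast Nat.four_pow_le_two_mul_add_one_mul_central_binom N
  have h6 : 0 ≤ ((Real.cosh s.re + Real.cos s.im) / 2) ^ N := by positivity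
  nlinarith [mul_le_mul_of_nonneg_right h5 h6]

lemma cos_far (a : ℕ) (ha : 1 ≤ a) (θ : ℝ) (h1 : Real.pi / (4 * a) ≤ |θ|)
    (h2 : |θ| ≤ 2 * Real.pi - Real.pi / (4 * a)) : Real.cos θ ≤ 1 - 1 / (8 * (a : ℝ) ^ 2) := by
  have ha' : (1 : ℝ) ≤ a := by exact_mod_cast ha
  have hpi := Real.pi_pos
  have h0 : 0 < Real.pi / (4 * a) := by positivity
  have key : ∀ x : ℝ, Real.pi / (4 * a) ≤ x → x ≤ Real.pi →
      Real.cos x ≤ 1 - 1 / (8 * (a : ℝ) ^ 2) := by
    intro x hx1 hx2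
    refine (Real.cos_le_one_sub_mul_cos_sq (by rw [abs_of_nonneg (by linarith)]; exact hx2)).trans ?_
    have : (Real.pi / (4 * a)) ^ 2 ≤ x ^ 2 := pow_le_pow_left₀ h0.le hx1 2
    have h3 : 2 / Real.pi ^ 2 * (Real.pi / (4 * a)) ^ 2 = 1 / (8 * (a : ℝ) ^ 2) := by
      field_simp; ring
    have h4 : 2 / Real.pi ^ 2 * (Real.pi / (4 * a)) ^ 2 ≤ 2 / Real.pi ^ 2 * x ^ 2 :=
      mul_le_mul_of_nonneg_left this (by positivity)
    linarith
  rw [← Real.cos_abs]
  rcases le_total |θ| Real.pi with h | h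
  · exact key _ h1 h
  · rw [← Real.cos_two_pi_sub]
    exact key _ (by linarith) (by linarith)

/-- the size of the kernel away from its peak -/
noncomputable def tiny (a N : ℕ) : ℝ := (2 * N + 1) * Real.exp (-(N : ℝ) / (32 * (a : ℝ) ^ 2))

lemma tiny_pos (a N : ℕ) : 0 < tiny a N := by unfold tiny; positivity

lemma Kn_far (a N : ℕ) (ha : 1 ≤ a) (s : ℂ) (hx : |s.re| ≤ 1 / (4 * a))
    (h1 : Real.pi / (4 * a) ≤ |s.im|) (h2 : |s.im| ≤ 2 * Real.pi - Real.pi / (4 * a)) :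
    ‖Kn N s‖ ≤ tiny a N := by
  have ha' : (1 : ℝ) ≤ a := by exact_mod_cast ha
  refine (norm_Kn N s).trans (mul_le_mul_of_nonneg_left ?_ (by positivity))
  have hc := cos_far a ha _ h1 h2
  have hx2 : s.re ^ 2 ≤ 1 / (16 * (a : ℝ) ^ 2) := by
    have := pow_le_pow_left₀ (abs_nonneg _) hx 2
    rw [sq_abs] at this
    refine this.trans (le_of_eq ?_)
    field_simp; ring
  have hx3 : 1 / (16 * (a : ℝ) ^ 2) ≤ 1 / 16 := by
    apply one_div_le_one_div_of_le (by norm_num); nlinarith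
  have hch : Real.cosh s.re ≤ 1 + 1 / (16 * (a : ℝ) ^ 2) := by
    refine (Real.cosh_le_exp_half_sq _).trans ?_
    have h5 : |s.re ^ 2 / 2| ≤ 1 := by rw [abs_of_nonneg (by positivity)]; linarith
    have := Real.abs_exp_sub_one_le h5
    rw [abs_of_nonneg (show 0 ≤ s.re ^ 2 / 2 by positivity)] at this
    have := (abs_le.mp this).2
    linarith
  have hc0 : 0 ≤ (Real.cosh s.re + Real.cos s.im) / 2 := by
    have := Real.one_le_cosh s.re
    have := Real.neg_one_le_cos s.im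
    linarith
  have h6 : (Real.cosh s.re + Real.cos s.im) / 2 ≤ Real.exp (-(1 / (32 * (a : ℝ) ^ 2))) := by
    refine le_trans ?_ (Real.add_one_le_exp _)
    have e1 : 1 / (8 * (a : ℝ) ^ 2) = 4 * (1 / (32 * (a : ℝ) ^ 2)) := by field_simp; ring
    have e2 : 1 / (16 * (a : ℝ) ^ 2) = 2 * (1 / (32 * (a : ℝ) ^ 2)) := by field_simp; ring
    linarith
  refine (pow_le_pow_left₀ hc0 h6 N).trans (le_of_eq ?_)
  rw [← Real.exp_nat_mul]; congr 1; ring

/-- arc means of the characters -/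
noncomputable def gm (A B : ℝ) (m : ℂ) : ℂ :=
  (1 / (2 * Real.pi) : ℂ) * ∫ α in A..B, exp (-(m * I) * α)

/-- arc mean of the kernel -/
noncomputable def ch (N : ℕ) (A B : ℝ) (s : ℂ) : ℂ :=
  ∑ i ∈ range (2 * N + 1), (kp N i : ℂ) * gm A B ((i : ℂ) - N) * exp (((i : ℂ) - N) * s)

lemma ch_eq (N : ℕ) (A B : ℝ) (s : ℂ) :
    ch N A B s = (1 / (2 * Real.pi) : ℂ) * ∫ α in A..B, Kn N (s - α * I) := by
  unfold Kn
  rw [intervalIntegral.integral_finsetSum, Finset.mul_sum, ch]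
  · refine Finset.sum_congr rfl fun i _ => ?_
    have : ∀ α : ℝ, (kp N i : ℂ) * exp (((i : ℂ) - N) * (s - α * I)) =
        ((kp N i : ℂ) * exp (((i : ℂ) - N) * s)) * exp (-(((i : ℂ) - N) * I) * α) := by
      intro α
      rw [mul_assoc, ← exp_add]; congr 2; ring
    simp_rw [this]
    rw [intervalIntegral.integral_const_mul, gm]; ring
  · intro i _
    exact Continuous.intervalIntegrable (by fun_prop) _ _

lemma norm_pref : ‖(1 / (2 * Real.pi) : ℂ)‖ = 1 / (2 * Real.pi) := by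
  rw [norm_div, norm_mul, Complex.norm_real, Real.norm_of_nonneg Real.pi_pos.le]; simp

lemma norm_ch (N : ℕ) (A B : ℝ) (s : ℂ) (T : ℝ) (hT : 0 ≤ T) (hAB : A ≤ B)
    (hl : B - A ≤ 2 * Real.pi) (h : ∀ α : ℝ, A ≤ α → α ≤ B → ‖Kn N (s - α * I)‖ ≤ T) :
    ‖ch N A B s‖ ≤ T := by
  rw [ch_eq, norm_mul, norm_pref]
  have h1 : ‖∫ α in A..B, Kn N (s - α * I)‖ ≤ T * |B - A| :=
    intervalIntegral.norm_integral_le_of_norm_le_const fun α hα => by
      rw [Set.uIoc_of_le hAB] at hα; exact h α hα.1.le hα.2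
  rw [abs_of_nonneg (by linarith)] at h1
  have hpi := Real.pi_pos
  rw [one_div, inv_mul_le_iff₀ (by positivity)]
  nlinarith

lemma gm_add (A B D : ℝ) (m : ℂ) : gm A B m + gm B D m = gm A D m := by
  unfold gm
  rw [← mul_add, intervalIntegral.integral_add_adjacent_intervals] <;>
    exact Continuous.intervalIntegrable (by fun_prop) _ _

lemma gm_full (A : ℝ) (N i : ℕ) :
    gm A (A + 2 * Real.pi) ((i : ℂ) - N) = if i = N then 1 else 0 := by
  have hpi : (Real.pi : ℂ) ≠ 0 := by exact_mod_cast Real.pi_pos.ne'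
  split_ifs with h
  · subst h; simp [gm]; field_simp
  · have h1 : -(((i : ℂ) - N) * I) ≠ 0 := by
      rw [neg_ne_zero]
      refine mul_ne_zero (sub_ne_zero.mpr ?_) I_ne_zero
      exact_mod_cast h
    rw [gm, integral_exp_mul_complex h1]
    have : -(((i : ℂ) - N) * I) * ((A + 2 * Real.pi : ℝ) : ℂ) =
        -(((i : ℂ) - N) * I) * A + (((N : ℤ) - i : ℤ) : ℂ) * (2 * Real.pi * I) := by
      push_cast; ring
    rw [this, exp_add, exp_int_mul_two_pi_mul_I]; simp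

lemma ch_full (N : ℕ) (A B : ℝ) (s : ℂ) : ch N A B s + ch N B (A + 2 * Real.pi) s = 1 := by
  unfold ch
  rw [← Finset.sum_add_distrib]
  have : ∀ i ∈ range (2 * N + 1), (kp N i : ℂ) * gm A B ((i : ℂ) - N) * exp (((i : ℂ) - N) * s) +
      (kp N i : ℂ) * gm B (A + 2 * Real.pi) ((i : ℂ) - N) * exp (((i : ℂ) - N) * s) =
      if i = N then 1 else 0 := by
    intro i _
    rw [← add_mul, ← mul_add, gm_add, gm_full]
    split_ifs with h
    · subst h; simp [kp_self]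
    · simp
  rw [Finset.sum_congr rfl this, Finset.sum_ite_eq']
  rw [if_pos (by simp; omega)]

lemma norm_gm (A B : ℝ) (hAB : A ≤ B) (m : ℝ) : ‖gm A B m‖ ≤ (B - A) / (2 * Real.pi) := by
  rw [gm, norm_mul, norm_pref]
  have h1 : ‖∫ α in A..B, exp (-((m : ℂ) * I) * α)‖ ≤ 1 * |B - A| :=
    intervalIntegral.norm_integral_le_of_norm_le_const fun α _ => by rw [norm_exp]; simp
  rw [abs_of_nonneg (by linarith)] at h1
  have hpi := Real.pi_pos
  rw [one_div, inv_mul_le_iff₀ (by positivity)]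
  refine h1.trans (le_of_eq ?_)
  field_simp

lemma norm_gm' (A B : ℝ) (m : ℝ) : ‖gm A B m‖ * |m| ≤ 1 / 3 := by
  by_cases h : m = 0
  · simp [h]
  have h1 : -((m : ℂ) * I) ≠ 0 := by
    rw [neg_ne_zero]; exact mul_ne_zero (by exact_mod_cast h) I_ne_zero
  rw [gm, integral_exp_mul_complex h1, norm_mul, norm_pref, norm_div]
  have h2 : ‖exp (-((m : ℂ) * I) * B) - exp (-((m : ℂ) * I) * A)‖ ≤ 2 := by
    refine (norm_sub_le _ _).trans ?_
    rw [norm_exp, norm_exp]; simp; norm_num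
  have h3 : ‖-((m : ℂ) * I)‖ = |m| := by simp
  have h4 : 0 < |m| := abs_pos.mpr h
  rw [h3, mul_assoc, div_mul_cancel₀ _ h4.ne']
  have hpi := Real.pi_gt_three
  rw [one_div, inv_mul_le_iff₀ (by positivity)]
  linarith

end Pool.Agent.P.MP_f981b0_an.IS72
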