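import Mathlib

set_option autoImplicit false
open Polynomial Finset

namespace Pool.Agent.P.MP_f981b0_an.IS72

/-- sum of the norms of the coefficients -/
noncomputable def l1 (p : ℂ[X]) : ℝ := ∑ i ∈ p.support, ‖p.coeff i‖

lemma l1_eq (p : ℂ[X]) (s : Finset ℕ) (h : p.support ⊆ s) : l1 p = ∑ i ∈ s, ‖p.coeff i‖ := by
  unfold l1
  refine Finset.sum_subset h ?_
  intro i _ hi
  simp [Polynomial.notMem_support_iff.mp hi]

lemma l1_nonneg (p : ℂ[X]) : 0 ≤ l1 p := Finset.sum_nonneg fun _ _ => norm_nonneg _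

lemma l1_add (p q : ℂ[X]) : l1 (p + q) ≤ l1 p + l1 q := by
  rw [l1_eq (p + q) (p.support ∪ q.support) Polynomial.support_add,
    l1_eq p (p.support ∪ q.support) Finset.subset_union_left,
    l1_eq q (p.support ∪ q.support) Finset.subset_union_right, ← Finset.sum_add_distrib]
  exact Finset.sum_le_sum fun i _ => by rw [coeff_add]; exact norm_add_le _ _

lemma l1_zero : l1 0 = 0 := by simp [l1]

lemma l1_sum {ι : Type*} (s : Finset ι) (f : ι → ℂ[X]) : l1 (∑ i ∈ s, f i) ≤ ∑ i ∈ s, l1 (f i) := by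
  classical
  induction s using Finset.induction_on with
  | empty => simp [l1_zero]
  | insert a s ha ih =>
    rw [Finset.sum_insert ha, Finset.sum_insert ha]
    exact (l1_add _ _).trans (by linarith)

lemma l1_monomial (n : ℕ) (c : ℂ) : l1 (monomial n c) = ‖c‖ := by
  rw [l1_eq _ {n} (Polynomial.support_monomial_subset n c)]
  simp

lemma l1_C_mul (c : ℂ) (p : ℂ[X]) : l1 (C c * p) = ‖c‖ * l1 p := by
  rw [l1_eq (C c * p) p.support, l1, Finset.mul_sum]
  · exact Finset.sum_congr rfl fun i _ => by rw [coeff_C_mul, norm_mul]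
  · intro i hi
    rw [Polynomial.mem_support_iff] at hi ⊢
    intro h; apply hi; rw [coeff_C_mul, h, mul_zero]

/-- `(z^A - z^B)/(1-z)` is a polynomial of l1 norm `|A - B|` -/
lemma div_mono (A B : ℕ) : ∃ r : ℂ[X], l1 r ≤ |(A : ℝ) - B| ∧
    ∀ z : ℂ, (1 - z) * r.eval z = z ^ A - z ^ B := by
  have key : ∀ A B : ℕ, A ≤ B → ∃ r : ℂ[X], l1 r ≤ (B : ℝ) - A ∧
      ∀ z : ℂ, (1 - z) * r.eval z = z ^ A - z ^ B := by
    intro A B h
    induction B, h using Nat.le_induction with
    | base => exact ⟨0, by simp [l1_zero], by simp⟩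
    | succ B _ ih =>
      obtain ⟨r, h1, h2⟩ := ih
      refine ⟨r + monomial B 1, ?_, fun z => ?_⟩
      · refine (l1_add _ _).trans ?_
        rw [l1_monomial]; push_cast; simp; linarith
      · rw [eval_add, mul_add, h2, eval_monomial]; ring
  rcases le_total A B with h | h
  · obtain ⟨r, h1, h2⟩ := key A B h
    exact ⟨r, h1.trans (by rw [abs_sub_comm]; exact le_abs_self _), h2⟩
  · obtain ⟨r, h1, h2⟩ := key B A h
    refine ⟨C (-1) * r, ?_, fun z => ?_⟩
    · rw [l1_C_mul]; simpa using h1.trans (le_abs_self _)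
    · rw [eval_mul, eval_C, mul_left_comm, h2]; ring

/-- the `a`-th root of unity -/
noncomputable def om (a : ℕ) : ℂ := Complex.exp (2 * Real.pi * Complex.I / a)

lemma sum_om (a : ℕ) (ha : 1 ≤ a) (e : ℕ) :
    ∑ k ∈ range a, (om a ^ k) ^ e = if a ∣ e then (a : ℂ) else 0 := by
  have hp : IsPrimitiveRoot (om a) a := Complex.isPrimitiveRoot_exp a (by omega)
  split_ifs with h
  · have : ∀ k ∈ range a, (om a ^ k) ^ e = 1 := by
      intro k _
      rw [← pow_mul, mul_comm, pow_mul, (hp.pow_eq_one_iff_dvd e).mpr h, one_pow]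
    rw [Finset.sum_congr rfl this]; simp
  · have h1 : om a ^ e ≠ 1 := fun h' => h ((hp.pow_eq_one_iff_dvd e).mp h')
    have : ∀ k ∈ range a, (om a ^ k) ^ e = (om a ^ e) ^ k := by
      intro k _; rw [← pow_mul, mul_comm, pow_mul]
    rw [Finset.sum_congr rfl this, geom_sum_eq h1, ← pow_mul, mul_comm, pow_mul, hp.pow_eq_one]
    simp

/-- trace of a polynomial -/
lemma trace (a : ℕ) (ha : 1 ≤ a) (p : ℂ[X]) : ∃ m : ℂ[X], l1 m ≤ a * l1 p ∧
    ∀ w : ℂ, ∑ k ∈ range a, p.eval (om a ^ k * w) = m.eval (w ^ a) := by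
  refine ⟨∑ i ∈ p.support, monomial (i / a) (if a ∣ i then a * p.coeff i else 0), ?_, fun w => ?_⟩
  · refine (l1_sum _ _).trans ?_
    rw [l1, Finset.mul_sum]
    refine Finset.sum_le_sum fun i _ => ?_
    rw [l1_monomial]
    split_ifs
    · simp
    · simp only [norm_zero]; positivity
  · rw [eval_finsetSum]
    simp_rw [fun k => eval_eq_sum (p := p) (x := om a ^ k * w), Polynomial.sum_def]
    rw [Finset.sum_comm]
    refine Finset.sum_congr rfl fun i _ => ?_
    simp_rw [mul_pow, ← mul_assoc, mul_comm (p.coeff i), mul_assoc]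
    rw [← Finset.sum_mul, sum_om a ha, eval_monomial]
    split_ifs with h
    · rw [← pow_mul, Nat.mul_div_cancel' h]; ring
    · simp

/-- trace and division of one monomial -/
lemma trace_div (a : ℕ) (ha : 1 ≤ a) (L e : ℕ) : ∃ m : ℂ[X], l1 m ≤ |(e : ℝ) - a * L| ∧
    ∀ w : ℂ, (1 - w ^ a) * m.eval (w ^ a) =
      ∑ k ∈ range a, (om a ^ k * w) ^ e - (∑ k ∈ range a, (om a ^ k) ^ e) * (w ^ a) ^ L := by
  by_cases h : a ∣ e
  · obtain ⟨n, rfl⟩ := h
    obtain ⟨r, h1, h2⟩ := div_mono n L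
    refine ⟨C (a : ℂ) * r, ?_, fun w => ?_⟩
    · rw [l1_C_mul]
      have : ((a * n : ℕ) : ℝ) - a * L = a * ((n : ℝ) - L) := by push_cast; ring
      rw [this, abs_mul]
      simp only [Complex.norm_natCast, Nat.abs_cast]
      exact mul_le_mul_of_nonneg_left h1 (by positivity)
    · simp_rw [mul_pow]
      rw [← Finset.sum_mul, sum_om a ha, if_pos (dvd_mul_right a n), eval_mul, eval_C, mul_left_comm,
        h2, pow_mul]
      ring
  · refine ⟨0, by rw [l1_zero]; exact abs_nonneg _, fun w => ?_⟩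
    simp_rw [mul_pow]
    rw [← Finset.sum_mul, sum_om a ha, if_neg h]; simp

end Pool.Agent.P.MP_f981b0_an.IS72
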